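import Mathlib
import Pool.Agent.U56.DG.Main

set_option autoImplicit false

/-!
# A uniform bound on `c(F)` for `q`-colourable graphs of bounded degeneracy

`c(F) ≤ (q - 1)² (r + 1)^q · c(K_q)` for every `q`-colourable `r`-degenerate graph `F`, whatever its
size.  In particular `c(F) ≤ 4 (r + 1)³` for all `3`-colourable `r`-degenerate graphs (Question 1
holds on this class), and `c` is uniformly bounded on the class of all `r`-degenerate graphs if and
only if `c(K_{r+1}) < ∞`.

Idea.  Let `G` have maximum degree `Δ`.  Either the cliques `K_q` of `G` can be assigned to their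
facets such that every facet gets at most `Δ^(1 - β)` cliques; then a random partition into
`Δ^(1 - β/(q-1) + o(1))` parts destroys almost all cliques.  Or there is a nonempty family of
cliques all of whose facets have more than `Δ^(1 - β)/q` completions in the family.  Then repeated
blow-up (Hölder) and dependent random choice in all `q` coordinates simultaneously, with root
counted globally as `G` is only locally dense, give sets `A_1, …, A_q` such that every set of at
most `r` vertices of the other sets has many common neighbours in `A_i`, for every `i`; all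
`q`-colourable `r`-degenerate graphs of bounded size embed greedily.
-/

namespace Pool.Agent.Results.MP_349e33_co.DegenerateColourable

open Pool.Agent.TH855 Pool.Agent.U56.DG
open scoped ENNReal

/-- (1) If `F` is a finite `q`-colourable `r`-degenerate graph, `q ≥ 3`, then
`c(F) ≤ (q - 1)² (r + 1)^q · c(K_q)`.
(2) If `F` is a finite `3`-colourable `r`-degenerate graph then `c(F) ≤ 4 (r + 1)³`.
(3) For `r ≥ 2` there is a finite `C` with `c(F) ≤ C` for all finite `r`-degenerate graphs `F` if
and only if `c(K_{r+1}) < ∞`. -/
theorem result :
    (∀ {W : Type} [Fintype W] (F : SimpleGraph W) (q r : ℕ), 3 ≤ q → F.Colorable q →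
      Degenerate F r →
        c F ≤ ((q - 1) ^ 2 * (r + 1) ^ q : ℕ) * c (⊤ : SimpleGraph (Fin q))) ∧
    (∀ {W : Type} [Fintype W] (F : SimpleGraph W) (r : ℕ), F.Colorable 3 → Degenerate F r →
      c F ≤ ((4 * (r + 1) ^ 3 : ℕ) : ℝ≥0∞)) ∧
    (∀ r : ℕ, 2 ≤ r →
      ((∃ C : ℝ≥0∞, C < ∞ ∧
          ∀ (W : Type) [Fintype W] (F : SimpleGraph W), Degenerate F r → c F ≤ C) ↔
        c (⊤ : SimpleGraph (Fin (r + 1))) < ∞)) :=
  ⟨fun F q r hq hcol hF => c_degenerate q r hq F hcol hF,
    fun F r hcol hF => c_degenerate_three r F hcol hF, fun r hr => uniform_iff r hr⟩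

end Pool.Agent.Results.MP_349e33_co.DegenerateColourable
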