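import Mathlib
import Pool.Agent.U473.HB.Hom

set_option autoImplicit false

/-!
# `c(F)` and homomorphisms

If `F` maps homomorphically to a 2-connected graph `H`, then `c(F) ≤ (|H| + |F|)^|H| · c(H)`.  Thus
finiteness of `c` only depends on the homomorphic core as long as the core is 2-connected, and the
Alon–Krivelevich–Sudakov conjecture for all graphs of chromatic number at most `r` is equivalent to
`c(K_r) < ∞` (`r ≥ 3`).
-/

namespace Pool.Agent.Results.MP_349e33_co.HomomorphismBound

open Pool.Agent.TH855 Pool.Agent.U473.HB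
open scoped ENNReal

/-- (1) If `H` is a finite 2-connected graph and the finite graph `F` has a homomorphism to `H`, then
`c(F) ≤ (|V(H)| + |V(F)|) ^ |V(H)| · c(H)`.
(2) Hence, if moreover `F` contains a copy of `H`, then `c(F)` is finite if and only if `c(H)` is.
(3) Hence, for every `r ≥ 3`: `c(F) < ∞` for all finite graphs `F` with `χ(F) ≤ r` if and only if
`c(K_r) < ∞`. -/
theorem result :
    (∀ {W U : Type} [Fintype W] [Fintype U] (F : SimpleGraph W) (H : SimpleGraph U),
      TwoConnected H → Nonempty (F →g H) →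
        c F ≤ ((Fintype.card U + Fintype.card W : ℕ) : ℝ≥0∞) ^ Fintype.card U * c H) ∧
    (∀ {W U : Type} [Fintype W] [Fintype U] (F : SimpleGraph W) (H : SimpleGraph U),
      TwoConnected H → Nonempty (F →g H) → H.IsContained F → (c F < ∞ ↔ c H < ∞)) ∧
    (∀ r : ℕ, 3 ≤ r →
      ((∀ (W : Type) [Fintype W] (F : SimpleGraph W), F.Colorable r → c F < ∞) ↔
        c (⊤ : SimpleGraph (Fin r)) < ∞)) := by
  refine ⟨?_, ?_, ?_⟩
  · intro W U _ _ F H hH hF
    obtain ⟨f⟩ := hF
    exact hom_bound F H hH f
  · intro W U _ _ F H hH hF hHF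
    obtain ⟨f⟩ := hF
    exact finite_iff F H hH f hHF
  · intro r hr
    refine ⟨fun h => h (Fin r) ⊤ ⟨SimpleGraph.Hom.id⟩, ?_⟩
    intro h W _ F hF
    obtain ⟨f⟩ := hF
    refine lt_of_le_of_lt (hom_bound F _ (twoConnected_top r hr) f) ?_
    exact ENNReal.mul_lt_top (ENNReal.pow_lt_top (ENNReal.natCast_lt_top _)) h

end Pool.Agent.Results.MP_349e33_co.HomomorphismBound
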